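import Mathlib
import Pool.Agent.H529R3.ChGraph

set_option autoImplicit false

/-!
# The relation for `ω₁ ^ 2` with target `ω₁ * ω` and size four fails under the continuum hypothesis

`c α β` says that the pair of `α` and `β` has the first colour.
-/

open Cardinal Set

namespace Pool.Agent.Results.MP_185924_lc.FailsUnderCH

theorem result (hCH : (2 : Cardinal.{0}) ^ ℵ₀ = Cardinal.aleph 1) :
    ∃ c : Ordinal.{0} → Ordinal.{0} → Prop, (∀ α β, c α β → c β α) ∧
      (¬ ∃ f : Ordinal.{0} → Ordinal.{0},
          StrictMonoOn f (Set.Iio ((Cardinal.aleph 1).ord * Ordinal.omega0)) ∧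
          (∀ α, α < (Cardinal.aleph 1).ord * Ordinal.omega0 →
              f α < (Cardinal.aleph 1).ord * (Cardinal.aleph 1).ord) ∧
          (∀ α β, α < β → β < (Cardinal.aleph 1).ord * Ordinal.omega0 →
              c (f α) (f β))) ∧
      (¬ ∃ g : Fin 4 → Ordinal.{0},
          StrictMono g ∧
          (∀ i, g i < (Cardinal.aleph 1).ord * (Cardinal.aleph 1).ord) ∧
          (∀ i j, i < j → ¬ c (g i) (g j))) :=
  Pool.Agent.H529R3.Ch.exists_colouring hCH

end Pool.Agent.Results.MP_185924_lc.FailsUnderCH
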